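import Pool.Agent.W78.GA.Defs
import Pool.Agent.H970R2.X.Defs

/-!
# Project MS (helper912): the Matomaki-Radziwill theorem for SHORT SQUARES of Gaussian integers.
Real completely multiplicative functions `f` with `|f| ≤ 1`, `f(i) = 1`. Frequencies `(k, l)`:
`z ↦ (z/|z|)^k (N z)^(-i l)`. Statements of the parts. Compare `W78/GA/Defs` (frequencies `k` only).
-/

set_option autoImplicit false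

namespace Pool.Agent.N912.MS

open Finset Filter
open Pool.Agent.H376R2.MR (ch w FK FR LL aa Wt)
open Pool.Agent.W78.GA (Qd nm prim ball win ann ang ps bg tc)
open Pool.Agent.H970R2.X (cellP mmp P1)

/-- the Gaussian integers -/
abbrev Gi := Qd 0 1

/-- the phase `k arg z - l log N z` -/
noncomputable def ph (κ : ℤ × ℤ) (z : Gi) : ℝ := κ.1 * ang z - κ.2 * Real.log (nm z)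

/-- `(z/|z|)^k (N z)^(-i l)` -/
noncomputable def chi (κ : ℤ × ℤ) (z : Gi) : ℂ := ps κ.1 z * ch κ.2 (Real.log (nm z))

/-- the size of a frequency: the square of the larger coordinate -/
def nrm (κ : ℤ × ℤ) : ℤ := max (κ.1 ^ 2) (κ.2 ^ 2)

open scoped Classical in
/-- the frequencies with `nrm κ < K` -/
noncomputable def FB (K : ℕ) : Finset (ℤ × ℤ) :=
  (FK (K + 1) ×ˢ FK (K + 1)).filter (fun κ => nrm κ < K)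

/-- `∑_{z ∈ s} a_z chi κ z` -/
noncomputable def DP2 (s : Finset Gi) (a : Gi → ℂ) (κ : ℤ × ℤ) : ℂ := ∑ z ∈ s, a z * chi κ z

/-- the functions considered -/
structure CMR (f : Gi → ℝ) : Prop where
  mul : ∀ z w : Gi, z ≠ 0 → w ≠ 0 → f (z * w) = f z * f w
  bd : ∀ z, |f z| ≤ 1
  unit : f ⟨0, 1⟩ = 1

/-- an element of norm `p` (if there is one) -/
noncomputable def gq (p : ℕ) : Gi := open scoped Classical in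
  if h : ∃ z : Gi, nm z = p then h.choose else 1

/-- `G_Y(κ) = ∑_z f(z) w(log(N z/Y))/N z chi κ z`, `w` the tent -/
noncomputable def G2 (f : Gi → ℝ) (Y : ℝ) (κ : ℤ × ℤ) : ℂ :=
  DP2 (ball 0 1 (Real.exp 1 * Y)) (fun z => (f z : ℂ) * (bg Y z : ℂ)) κ

/-- `P_v(κ) = - ∑_{p ∈ cell, p ≡ 1 mod 4} f(ϖ_p) chi κ ϖ_p / p` -/
noncomputable def P2 (f : Gi → ℝ) (H v : ℕ) (κ : ℤ × ℤ) : ℂ :=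
  -∑ p ∈ cellP (P1 4) H v, (f (gq p) : ℂ) * chi κ (gq p) / (p : ℂ)

/-- `m_v = ∑_{p ∈ cell, p ≡ 1 mod 4} 1 / p` -/
noncomputable def m2 (H v : ℕ) : ℝ := mmp (P1 4) H v

/-! ### Exponential sums -/

/-- MS1: exponential sums over balls; power saving, with the main term for the radial frequencies -/
def S_EXP2 : Prop := ∀ M : ℕ, ∃ η : ℝ, 0 < η ∧ η ≤ 1 / 2 ∧ ∃ C : ℝ, 0 < C ∧ ∀ (X : ℝ) (κ : ℤ × ℤ),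
  1 ≤ X → (nrm κ : ℝ) ≤ X ^ M →
    (κ.1 ≠ 0 → ‖∑ z ∈ ball 0 1 X, chi κ z‖ ≤ C * X ^ (1 - η)) ∧
    (κ.1 = 0 → ‖∑ z ∈ ball 0 1 X, chi κ z -
      (Real.pi : ℂ) * (X : ℂ) ^ (1 - κ.2 * Complex.I) / (1 - κ.2 * Complex.I)‖ ≤ C * X ^ (1 - η))

/-! ### The machine, with exceptional radial frequencies -/

/-- the input of the machine; compare `W78.GA.MachB` (there `FK K`, `|k|` and no exceptions) -/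
structure MachE (P : ℕ → ℕ → ℤ × ℤ → ℂ) (m : ℕ → ℕ → ℝ) (G : ℝ → ℤ × ℤ → ℂ) : Prop where
  m_nonneg : ∀ H v, 0 ≤ m H v
  P_le : ∀ H v k, ‖P H v k‖ ≤ m H v
  rich : ∃ c : ℝ, 0 < c ∧ ∃ C : ℝ, ∀ H v₀ v₁ : ℕ, 1 ≤ H → H ≤ v₀ → v₀ ≤ v₁ →
    c * Real.log ((v₁ : ℝ) / v₀) - C ≤ ∑ v ∈ Ico v₀ v₁, m H v
  cell_avg : ∃ c' : ℝ, 0 < c' ∧ c' ≤ 1 ∧ ∃ Λ : ℕ, ∀ M H : ℕ, 1 ≤ H → ∃ L₀ V₀ : ℕ, ∀ v₀ v₁ : ℕ,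
    V₀ ≤ v₀ → Λ * v₀ ≤ v₁ → ∀ κ : ℤ × ℤ, (κ.1 ≠ 0 ∨ (L₀ : ℤ) ≤ |κ.2|) →
    (nrm κ : ℝ) ≤ Real.exp (M * (v₀ : ℝ) / H) →
    ∑ v ∈ Ico v₀ v₁, ‖P H v κ‖ ≤ (1 - c') * ∑ v ∈ Ico v₀ v₁, m H v
  dec : ∃ C : ℝ, 0 < C ∧ ∃ β : ℝ, 0 < β ∧ ∃ Z₀ : ℝ, ∀ H v₀ v₁ : ℕ, 1 ≤ H → H ≤ v₀ →
    1 ≤ ∑ v ∈ Ico v₀ v₁, m H v → ∀ Y : ℝ, Real.exp (4 * (v₁ : ℝ) / H) ≤ Y → ∃ E : ℤ × ℤ → ℂ,
      (∀ κ : ℤ × ℤ, G Y κ = -(1 / ((∑ v ∈ Ico v₀ v₁, m H v : ℝ) : ℂ)) *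
        ∑ v ∈ Ico v₀ v₁, P H v κ * G (Y * Real.exp (-((v : ℝ) / H))) κ + E κ) ∧
      (∀ K : ℕ, 1 ≤ K → (K : ℝ) ≤ Y → ∑ κ ∈ FB K, ‖E κ‖ ^ 2 ≤
        C * (1 / (∑ v ∈ Ico v₀ v₁, m H v) + 1 / (H : ℝ) ^ 2)) ∧
      (Z₀ ≤ Y → ∀ U : Finset (ℤ × ℤ), (∀ κ ∈ U, (nrm κ : ℝ) ≤ Y ^ (4 / 3 : ℝ)) →
        (U.card : ℝ) ≤ Y ^ β →
        ∑ κ ∈ U, ‖E κ‖ ^ 2 ≤ C * (1 / (∑ v ∈ Ico v₀ v₁, m H v) + 1 / (H : ℝ) ^ 2))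
  mom_zero : ∃ C : ℝ, 0 < C ∧ ∀ (K : ℕ) (Z : ℝ), 3 ≤ Z → 1 ≤ K →
    ∑ κ ∈ FB K, ‖G Z κ‖ ^ 2 ≤ C * (1 + (K : ℝ) / Z)
  momP : ∃ C : ℝ, 1 ≤ C ∧ ∀ H r ℓ K : ℕ, 1 ≤ H → 1 ≤ K → (K : ℝ) ≤ Real.exp ((r : ℝ) * ℓ / H) →
    ∑ κ ∈ FB K, ‖P H r κ‖ ^ (2 * ℓ) ≤ C ^ (ℓ + 1) * (ℓ.factorial : ℝ) ^ 8
  mom : ∃ C : ℝ, 1 ≤ C ∧ ∀ (H r ℓ K : ℕ) (Z : ℝ), 1 ≤ H → 3 ≤ Z → 1 ≤ K →
    (K : ℝ) ≤ Z * Real.exp ((r : ℝ) * ℓ / H) →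
    ∑ κ ∈ FB K, ‖P H r κ ^ ℓ * G Z κ‖ ^ 2 ≤ C ^ (ℓ + 1) * (ℓ.factorial : ℝ) ^ 8
  sparse : ∃ C : ℝ, 0 < C ∧ ∃ β : ℝ, 0 < β ∧ ∃ Z₀ : ℝ, ∀ Z : ℝ, Z₀ ≤ Z → ∀ U : Finset (ℤ × ℤ),
    (∀ κ ∈ U, (nrm κ : ℝ) ≤ Z ^ (4 / 3 : ℝ)) → (U.card : ℝ) ≤ Z ^ β → ∑ κ ∈ U, ‖G Z κ‖ ^ 2 ≤ C
  small : ∀ l : ℤ, Tendsto (fun Y : ℝ => ‖G Y (0, l)‖) atTop (nhds 0)

/-- MS2: the conclusion of the machine -/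
def S_MACHE : Prop := ∀ (P : ℕ → ℕ → ℤ × ℤ → ℂ) (m : ℕ → ℕ → ℝ) (G : ℝ → ℤ × ℤ → ℂ),
  MachE P m G → ∀ η : ℝ, 0 < η → ∃ h : ℝ, 1 ≤ h ∧ ∃ Y₀ : ℝ, ∀ Y : ℝ, Y₀ ≤ Y →
    ∑ κ ∈ FB ⌊Y / h⌋₊, ‖G Y κ‖ ^ 2 ≤ η

/-! ### The inputs -/

/-- MS3: the sieve bound with phases -/
def S_SEL2 : Prop := ∃ C : ℝ, 0 < C ∧ ∀ M H R : ℕ, 1 ≤ H → 1 ≤ R → ∃ L₀ v₀ : ℕ, ∀ v : ℕ,
  v₀ ≤ v → ∀ κ : ℤ × ℤ, (κ.1 ≠ 0 ∨ (L₀ : ℤ) ≤ |κ.2|) →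
  (nrm κ : ℝ) ≤ Real.exp (M * (v : ℝ) / H) → ∀ φ : ℝ,
    ∑ p ∈ cellP (P1 4) H v, FR R (ph κ (gq p) + φ) / (p : ℝ) ≤ C / v

/-- MS4: the cells -/
def S_CELL2 : Prop := ∀ f : Gi → ℝ, CMR f → ∃ c' : ℝ, 0 < c' ∧ c' ≤ 1 ∧ ∃ Λ : ℕ, ∀ M H : ℕ, 1 ≤ H →
  ∃ L₀ V₀ : ℕ, ∀ v₀ v₁ : ℕ, V₀ ≤ v₀ → Λ * v₀ ≤ v₁ → ∀ κ : ℤ × ℤ, (κ.1 ≠ 0 ∨ (L₀ : ℤ) ≤ |κ.2|) →
    (nrm κ : ℝ) ≤ Real.exp (M * (v₀ : ℝ) / H) →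
    ∑ v ∈ Ico v₀ v₁, ‖P2 f H v κ‖ ≤ (1 - c') * ∑ v ∈ Ico v₀ v₁, m2 H v

/-- MS5: large sieve (the window is shorter than `2π` in `log N z`) -/
def S_LS2 : Prop := ∃ C : ℝ, 0 < C ∧ ∀ (X : ℝ) (K : ℕ) (s : Finset Gi) (a : Gi → ℂ), 1 ≤ X →
  1 ≤ K → s ⊆ win 0 1 X → ∑ κ ∈ FB K, ‖DP2 s a κ‖ ^ 2 ≤ C * (K + X) * ∑ z ∈ s, ‖a z‖ ^ 2

/-- MS6: the moments -/
def S_MOM2 : Prop := ∀ f : Gi → ℝ, CMR f →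
  (∃ C : ℝ, 0 < C ∧ ∀ (K : ℕ) (Z : ℝ), 3 ≤ Z → 1 ≤ K →
    ∑ κ ∈ FB K, ‖G2 f Z κ‖ ^ 2 ≤ C * (1 + (K : ℝ) / Z)) ∧
  (∃ C : ℝ, 1 ≤ C ∧ ∀ H r ℓ K : ℕ, 1 ≤ H → 1 ≤ K → (K : ℝ) ≤ Real.exp ((r : ℝ) * ℓ / H) →
    ∑ κ ∈ FB K, ‖P2 f H r κ‖ ^ (2 * ℓ) ≤ C ^ (ℓ + 1) * (ℓ.factorial : ℝ) ^ 8) ∧
  (∃ C : ℝ, 1 ≤ C ∧ ∀ (H r ℓ K : ℕ) (Z : ℝ), 1 ≤ H → 3 ≤ Z → 1 ≤ K →
    (K : ℝ) ≤ Z * Real.exp ((r : ℝ) * ℓ / H) →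
    ∑ κ ∈ FB K, ‖P2 f H r κ ^ ℓ * G2 f Z κ‖ ^ 2 ≤ C ^ (ℓ + 1) * (ℓ.factorial : ℝ) ^ 8)

/-- MS7: large sieve for sparse sets of frequencies -/
def S_SPARSE2 : Prop := ∃ α : ℝ, 0 < α ∧ ∃ C : ℝ, 0 < C ∧ ∃ Z₀ : ℝ, ∀ Z : ℝ, Z₀ ≤ Z →
  ∀ U : Finset (ℤ × ℤ), (∀ κ ∈ U, (nrm κ : ℝ) ≤ Z ^ (4 / 3 : ℝ)) → (U.card : ℝ) ≤ Z ^ α →
  ∀ (s : Finset Gi) (a : Gi → ℂ), s ⊆ win 0 1 Z →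
    ∑ κ ∈ U, ‖DP2 s a κ‖ ^ 2 ≤ C * Z * ∑ z ∈ s, ‖a z‖ ^ 2

/-- MS8: the decomposition -/
def S_DEC2 : Prop := ∀ f : Gi → ℝ, CMR f → ∃ C : ℝ, 0 < C ∧ ∀ H v₀ v₁ : ℕ, 1 ≤ H → H ≤ v₀ →
  1 ≤ ∑ v ∈ Ico v₀ v₁, m2 H v → ∀ Y : ℝ, Real.exp (4 * (v₁ : ℝ) / H) ≤ Y →
  ∃ (s : Finset Gi) (a : Gi → ℂ), s ⊆ win 0 1 Y ∧
    (∀ κ : ℤ × ℤ, G2 f Y κ = -(1 / ((∑ v ∈ Ico v₀ v₁, m2 H v : ℝ) : ℂ)) *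
      ∑ v ∈ Ico v₀ v₁, P2 f H v κ * G2 f (Y * Real.exp (-((v : ℝ) / H))) κ + DP2 s a κ) ∧
    Y * ∑ z ∈ s, ‖a z‖ ^ 2 ≤ C * (1 / (∑ v ∈ Ico v₀ v₁, m2 H v) + 1 / (H : ℝ) ^ 2)

/-- mean value zero -/
def MZ (f : Gi → ℝ) : Prop := ∀ ε : ℝ, 0 < ε → ∃ X₀ : ℝ, ∀ X : ℝ, X₀ ≤ X →
  |∑ z ∈ ball 0 1 X, f z| ≤ ε * X

/-- MS9: the frequencies -/
def S_MR2 : Prop := ∀ f : Gi → ℝ, CMR f → MZ f → ∀ η : ℝ, 0 < η → ∃ h : ℝ, 1 ≤ h ∧ ∃ Y₀ : ℝ,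
  ∀ Y : ℝ, Y₀ ≤ Y → ∑ κ ∈ FB ⌊Y / h⌋₊, ‖G2 f Y κ‖ ^ 2 ≤ η

/-! ### From frequencies to squares -/

/-- index of the arc of `z` in the division of the circle into `n` equal arcs -/
noncomputable def aix (n : ℕ) (z : Gi) : ℤ := ⌊(ang z + Real.pi) * n / (2 * Real.pi)⌋

/-- index of the ring of `z`: `i/n ≤ log (N z/X) < (i+1)/n` -/
noncomputable def lix (n : ℕ) (X : ℝ) (z : Gi) : ℤ := ⌊n * (Real.log (nm z) - Real.log X)⌋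

open scoped Classical in
/-- MS10: sums over polar cells of the annulus `X ≤ N z < e X` -/
def S_CELLS : Prop := ∀ f : Gi → ℝ, (∀ z, |f z| ≤ 1) →
  (∀ η : ℝ, 0 < η → ∃ h : ℝ, 1 ≤ h ∧ ∃ Y₀ : ℝ, ∀ Y : ℝ, Y₀ ≤ Y →
    ∑ κ ∈ FB ⌊Y / h⌋₊, ‖G2 f Y κ‖ ^ 2 ≤ η) →
  ∀ ε : ℝ, 0 < ε → ∃ h : ℝ, 1 ≤ h ∧ ∃ X₀ : ℝ, ∀ X : ℝ, X₀ ≤ X → ∀ n : ℕ, 1 ≤ n →
    (n : ℝ) ^ 2 * h ≤ X →
    ∑ j ∈ range (n + 1), ∑ i ∈ range n, |∑ z ∈ (ball 0 1 (Real.exp 1 * X)).filter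
      (fun z => aix n z = (j : ℤ) ∧ lix n X z = (i : ℤ)), f z| ≤ ε * X

/-- the square with corner `z` and side `L` -/
noncomputable def sq (z : Gi) (L : ℕ) : Finset Gi :=
  (range L ×ˢ range L).image (fun p => (⟨z.re + p.1, z.im + p.2⟩ : Gi))

/-- the square `|Re z|, |Im z| ≤ R` -/
noncomputable def bx2 (R : ℕ) : Finset Gi :=
  (Icc (-(R : ℤ)) R ×ˢ Icc (-(R : ℤ)) R).image (fun p => (⟨p.1, p.2⟩ : Gi))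

/-- the averages of `f` over the short squares of side `L` are close to `μ`, for large `L` -/
def SqA (f : Gi → ℝ) (μ : ℝ) : Prop := ∀ ε : ℝ, 0 < ε → ∃ L₀ : ℕ, ∀ L : ℕ, L₀ ≤ L → ∃ R₀ : ℕ,
  ∀ R : ℕ, R₀ ≤ R → ∑ z ∈ bx2 R, |∑ u ∈ sq z L, (f u - μ)| ≤ ε * (L : ℝ) ^ 2 * (R : ℝ) ^ 2

open scoped Classical in
/-- MS11: from polar cells to squares -/
def S_SQB : Prop := ∀ f : Gi → ℝ, (∀ z, |f z| ≤ 1) →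
  (∀ ε : ℝ, 0 < ε → ∃ h : ℝ, 1 ≤ h ∧ ∃ X₀ : ℝ, ∀ X : ℝ, X₀ ≤ X → ∀ n : ℕ, 1 ≤ n →
    (n : ℝ) ^ 2 * h ≤ X →
    ∑ j ∈ range (n + 1), ∑ i ∈ range n, |∑ z ∈ (ball 0 1 (Real.exp 1 * X)).filter
      (fun z => aix n z = (j : ℤ) ∧ lix n X z = (i : ℤ)), f z| ≤ ε * X) →
  SqA f 0

/-- the Gaussian primes in the first quadrant, `Re > 0`, `Im ≥ 0` -/
def Pr1 (z : Gi) : Prop := Prime z ∧ 0 < z.re ∧ 0 ≤ z.im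

open scoped Classical in
/-- the partial product of `P(f)` -/
noncomputable def PP2 (f : Gi → ℝ) (x : ℕ) : ℝ :=
  ∏ z ∈ (ball 0 1 x).filter Pr1, ((nm z : ℝ) - 1) / ((nm z : ℝ) - f z)

open scoped Classical in
/-- `∑ (1 - f(p))/N p` over the primes -/
def Pret (f : Gi → ℝ) : Prop := Summable (fun z : Gi => if Pr1 z then (1 - f z) / (nm z : ℝ) else 0)

/-- MS12: the functions close to `1` -/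
def S_PRET2 : Prop := ∀ f : Gi → ℝ, CMR f → Pret f →
  ∃ μ : ℝ, Tendsto (PP2 f) atTop (nhds μ) ∧ SqA f μ

/-- MS13: the other functions have mean value zero -/
def S_HAL2 : Prop := ∀ f : Gi → ℝ, CMR f → ¬ Pret f →
  Tendsto (PP2 f) atTop (nhds 0) ∧ MZ f

/-! ### The theorem -/

open MeasureTheory in
/-- `U` is Jordan measurable of positive area -/
structure JM (U : Set (ℝ × ℝ)) : Prop where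
  bdd : Bornology.IsBounded U
  null : volume (frontier U) = 0
  pos : 0 < volume U

/-- the nonzero Gaussian integers in `k U` -/
def dil (U : Set (ℝ × ℝ)) (k : ℝ) : Set Gi :=
  {z | z ≠ 0 ∧ ∃ u ∈ U, (z.re : ℝ) = k * u.1 ∧ (z.im : ℝ) = k * u.2}

open scoped Classical in
/-- the average of `g` over a finite set -/
noncomputable def avg (S : Set Gi) (g : Gi → ℝ) : ℝ := (∑ᶠ z ∈ S, g z) / (Set.ncard S : ℝ)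

/-- MS14: dilated Folner sequences; the term `0` is omitted in the inner average -/
def S_FIN2 : Prop := ∀ (f : Gi → ℝ) (μ : ℝ), (∀ z, |f z| ≤ 1) → |μ| ≤ 1 → SqA f μ →
  ∀ (U : Set (ℝ × ℝ)) (k : ℕ → ℝ), JM U → (∀ N, 0 < k N) → Tendsto k atTop atTop →
  ∀ ε : ℝ, 0 < ε → ∃ H₀ : ℕ, ∀ H : ℕ, H₀ ≤ H → ∃ N₀ : ℕ, ∀ N : ℕ, N₀ ≤ N →
    avg (dil U (k N)) (fun n => |avg {h | h ≠ 0 ∧ ∃ u ∈ dil U (k H), h = n + u} f - μ|) ≤ ε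

/-- MS14': centred squares -/
def S_FIN1 : Prop := ∀ (f : Gi → ℝ) (μ : ℝ), (∀ z, |f z| ≤ 1) → |μ| ≤ 1 → SqA f μ →
  ∀ ε : ℝ, 0 < ε → ∃ H₀ : ℕ, ∀ H : ℕ, H₀ ≤ H → ∃ N₀ : ℕ, ∀ N : ℕ, N₀ ≤ N →
    avg (bx2 N : Set Gi) (fun n => |avg {h | h ≠ 0 ∧ ∃ u ∈ bx2 H, h = n + u} f - μ|) ≤ ε

end Pool.Agent.N912.MS
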