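import Pool.Agent.N912.MS.Stm

/-!
# Project MS (helper912), second part: existence of the inner limits
-/

set_option autoImplicit false

namespace Pool.Agent.N912.MS

open Finset Filter
open Pool.Agent.W78.GA (Qd nm ball)

/-- `f` is a limit in the mean of periodic functions -/
def Bes (f : Gi → ℝ) : Prop := ∀ ε : ℝ, 0 < ε → ∃ (M : ℕ) (g : Gi → ℝ), 1 ≤ M ∧
  (∀ z w : Gi, g (z + (M : Gi) * w) = g z) ∧ (∀ z, |g z| ≤ 1) ∧
  ∃ R₀ : ℕ, ∀ R : ℕ, R₀ ≤ R → ∑ z ∈ bx2 R, |f z - g z| ≤ ε * (R : ℝ) ^ 2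

/-- MS15: the functions close to `1` -/
def S_BES2 : Prop := ∀ f : Gi → ℝ, CMR f → Pret f → Bes f

/-- MS16: the inner limit exists for limits in the mean of periodic functions; `S` is any set of
shifts -/
def S_LIMB : Prop := ∀ f : Gi → ℝ, (∀ z, |f z| ≤ 1) → Bes f → ∀ (S : Finset Gi) (μ : ℝ),
  (∀ (U : Set (ℝ × ℝ)) (k : ℕ → ℝ), JM U → (∀ N, 0 < k N) → Tendsto k atTop atTop →
    ∃ ℓ : ℝ, Tendsto (fun N : ℕ => avg (dil U (k N))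
      (fun n => |avg {h | h ≠ 0 ∧ ∃ u ∈ (S : Set Gi), h = n + u} f - μ|)) atTop (nhds ℓ)) ∧
  ∃ ℓ : ℝ, Tendsto (fun N : ℕ => avg (bx2 N : Set Gi)
    (fun n => |avg {h | h ≠ 0 ∧ ∃ u ∈ (S : Set Gi), h = n + u} f - μ|)) atTop (nhds ℓ)

/-- MS17: the inner limit is zero if `|f|` has mean value zero -/
def S_LIMZ : Prop := ∀ f : Gi → ℝ, (∀ z, |f z| ≤ 1) → MZ (fun z => |f z|) → ∀ S : Finset Gi,
  (∀ (U : Set (ℝ × ℝ)) (k : ℕ → ℝ), JM U → (∀ N, 0 < k N) → Tendsto k atTop atTop →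
    Tendsto (fun N : ℕ => avg (dil U (k N))
      (fun n => |avg {h | h ≠ 0 ∧ ∃ u ∈ (S : Set Gi), h = n + u} f|)) atTop (nhds 0)) ∧
  Tendsto (fun N : ℕ => avg (bx2 N : Set Gi)
    (fun n => |avg {h | h ≠ 0 ∧ ∃ u ∈ (S : Set Gi), h = n + u} f|)) atTop (nhds 0)

end Pool.Agent.N912.MS
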