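import Pool.Agent.N912.MS.Mr2
import Pool.Agent.N912.MS.Stm2
import Pool.Agent.N717.MS.Exp2
import Pool.Agent.N49.MS.Mache
import Pool.Agent.N897.MS.Sel2
import Pool.Agent.N707.MS.Cell
import Pool.Agent.N277.MS.LS
import Pool.Agent.N771.MS.Mom2
import Pool.Agent.N492.MS.Sparse2
import Pool.Agent.N316.MS.Dec2
import Pool.Agent.N391.MS.Sqb
import Pool.Agent.N80.MS.HalB
import Pool.Agent.N570.MS.Fin
import Pool.Agent.N814.MS.Cells
import Pool.Agent.N713.MS.Pret2
import Pool.Agent.N891.MS.Limb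
import Pool.Agent.N700.MS.Limz
import Pool.Agent.N565.MS.Bes

/-!
# Project MS (helper912): assembly
-/

set_option autoImplicit false

namespace Pool.Agent.N912.MS

open Finset Filter
open Pool.Agent.W78.GA (Qd nm ball)

theorem exp2 : S_EXP2 := Pool.Agent.N717.MS.exp2

theorem sel2 : S_SEL2 := Pool.Agent.N897.MS.Sel2.sel2 exp2

theorem cell2 : S_CELL2 := Pool.Agent.N707.MS.cell2 sel2

theorem ls2 : S_LS2 := Pool.Agent.N277.MS.ls2

theorem mom2 : S_MOM2 := Pool.Agent.N771.MS.mom2 ls2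

theorem mr2All : S_MR2 :=
  mr2 Pool.Agent.N49.MS.mache cell2 ls2 mom2 (Pool.Agent.N492.MS.sparse2 exp2)
    Pool.Agent.N316.MS.dec2

theorem hal2 : S_HAL2 := Pool.Agent.N80.MS.hal2

theorem cells : S_CELLS := Pool.Agent.N814.MS.cells

theorem pret2 : S_PRET2 := Pool.Agent.N713.MS.pret2

theorem bes2 : S_BES2 := Pool.Agent.N565.MS.bes2

theorem limb : S_LIMB := Pool.Agent.N891.MS.limb

theorem limz : S_LIMZ := Pool.Agent.N700.MS.limz

/-- the averages over short squares of a function with mean value zero -/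
theorem sqa0 {f : Gi → ℝ} (hf : CMR f) (hMZ : MZ f) : SqA f 0 :=
  Pool.Agent.N391.MS.sqb f hf.bd (cells f hf.bd (mr2All f hf hMZ))

open scoped Classical in
/-- the condition for the existence of the inner limits -/
def Cnd (f : Gi → ℝ) : Prop :=
  Summable (fun z : Gi => if Pr1 z ∧ f z < 0 then 1 / (nm z : ℝ) else 0) ∨
    ¬ Summable (fun z : Gi => if Pr1 z then (1 - |f z|) / (nm z : ℝ) else 0)

theorem cmr_abs {f : Gi → ℝ} (hf : CMR f) : CMR (fun z => |f z|) where
  mul := fun z w hz hw => by rw [hf.mul z w hz hw, abs_mul]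
  bd := fun z => by rw [abs_abs]; exact hf.bd z
  unit := by rw [hf.unit, abs_one]

theorem not_pret_abs {f : Gi → ℝ} (hf : CMR f) (hc : Cnd f) (hp : ¬ Pret f) :
    ¬ Pret (fun z => |f z|) := by
  classical
  rcases hc with h1 | h1
  · intro h2
    apply hp
    unfold Pret at h2 ⊢
    refine Summable.of_nonneg_of_le ?_ ?_ (h2.add (h1.mul_left 2))
    · intro z
      split_ifs
      · exact div_nonneg (by linarith [(abs_le.1 (hf.bd z)).2]) (Nat.cast_nonneg _)
      · exact le_rfl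
    · intro z
      by_cases hz : Pr1 z
      · by_cases hn : f z < 0
        · simp only [hz, hn, and_self, if_true]
          rw [← mul_div_assoc, mul_one, ← add_div]
          exact div_le_div_of_nonneg_right
            (by rw [abs_of_neg hn]; linarith [(abs_le.1 (hf.bd z)).1]) (Nat.cast_nonneg _)
        · simp only [hz, hn, and_false, if_true, if_false]
          rw [abs_of_nonneg (not_lt.1 hn), mul_zero, add_zero]
      · simp [hz]
  · exact h1

theorem pp_mem {f : Gi → ℝ} (hf : CMR f) (x : ℕ) : 0 ≤ PP2 f x ∧ PP2 f x ≤ 1 := by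
  classical
  unfold PP2
  have h : ∀ z ∈ (ball 0 1 (x : ℝ)).filter Pr1, 0 ≤ ((nm z : ℝ) - 1) / ((nm z : ℝ) - f z) ∧
      ((nm z : ℝ) - 1) / ((nm z : ℝ) - f z) ≤ 1 := by
    intro z hz
    rw [mem_filter, Pool.Agent.W78.GA.mem_ball hD4] at hz
    have h1 : (1 : ℝ) ≤ nm z := by exact_mod_cast hz.1.1
    have h2 := (abs_le.1 (hf.bd z)).2
    constructor
    · exact div_nonneg (by linarith) (by linarith)
    · exact div_le_one_of_le₀ (by linarith) (by linarith)
  exact ⟨prod_nonneg fun z hz => (h z hz).1, prod_le_one (fun z hz => (h z hz).1) fun z hz => (h z hz).2⟩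

/-- everything about `f` -/
theorem main {f : Gi → ℝ} (hf : CMR f) : ∃ μ : ℝ, |μ| ≤ 1 ∧ Tendsto (PP2 f) atTop (nhds μ) ∧
    SqA f μ ∧ (Cnd f → Bes f ∨ (μ = 0 ∧ MZ (fun z => |f z|))) := by
  by_cases hp : Pret f
  · obtain ⟨μ, h1, h2⟩ := pret2 f hf hp
    refine ⟨μ, ?_, h1, h2, fun _ => Or.inl (bes2 f hf hp)⟩
    rw [abs_le]
    have h3 := ge_of_tendsto' h1 (fun x => (pp_mem hf x).1)
    have h4 := le_of_tendsto' h1 (fun x => (pp_mem hf x).2)
    constructor <;> linarith
  · obtain ⟨h1, hMZ⟩ := hal2 f hf hp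
    refine ⟨0, by simp, h1, sqa0 hf hMZ, fun hc => Or.inr ⟨rfl, ?_⟩⟩
    exact (hal2 _ (cmr_abs hf) (not_pret_abs hf hc hp)).2

end Pool.Agent.N912.MS
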