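import Pool.Agent.N912.MS.Small
import Pool.Agent.W45.GA.Lat
import Pool.Agent.H970R2.X.Rap

/-!
# Project MS (helper912): the theorem on the frequencies (MS9), from its parts
-/

set_option autoImplicit false

namespace Pool.Agent.N912.MS

open Finset Filter
open Pool.Agent.H376R2.MR (ch w FK FR LL aa Wt)
open Pool.Agent.W78.GA
open Pool.Agent.H970R2.X (cellP mmp P1 WWp)

theorem norm_chi (κ : ℤ × ℤ) (z : Gi) : ‖chi κ z‖ ≤ 1 := by
  unfold chi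
  rw [norm_mul, norm_ch, mul_one]
  exact norm_ps_le z κ.1

theorem norm_P2 {f : Gi → ℝ} (hf : CMR f) (H v : ℕ) (κ : ℤ × ℤ) : ‖P2 f H v κ‖ ≤ m2 H v := by
  unfold P2 m2 mmp
  rw [norm_neg]
  refine (norm_sum_le _ _).trans (sum_le_sum fun p _ => ?_)
  rw [norm_div, norm_mul, Complex.norm_natCast, Complex.norm_real, Real.norm_eq_abs]
  refine div_le_div_of_nonneg_right ?_ (Nat.cast_nonneg _)
  calc |f (gq p)| * ‖chi κ (gq p)‖ ≤ 1 * 1 :=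
        mul_le_mul (hf.bd _) (norm_chi _ _) (norm_nonneg _) zero_le_one
    _ = 1 := one_mul 1

theorem m2_nonneg (H v : ℕ) : 0 ≤ m2 H v := Pool.Agent.H970R2.X.xrap_mmp_nonneg _ _ _

theorem machE {f : Gi → ℝ} (hf : CMR f) (hMZ : MZ f) (h4 : S_CELL2) (h5 : S_LS2) (h6 : S_MOM2)
    (h7 : S_SPARSE2) (h8 : S_DEC2) : MachE (P2 f) m2 (G2 f) := by
  classical
  obtain ⟨hm0, hmp, hm⟩ := h6 f hf
  refine
    { m_nonneg := m2_nonneg, P_le := norm_P2 hf, rich := ?_, cell_avg := h4 f hf, dec := ?_,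
      mom_zero := hm0, momP := hmp, mom := hm, sparse := ?_, small := small hMZ }
  · obtain ⟨c₀, hc₀, ⟨C, hC⟩, -⟩ := Pool.Agent.H970R2.X.rich_ap 4 (by norm_num)
    exact ⟨c₀, hc₀, C, hC⟩
  · obtain ⟨C₁, hC₁, h1⟩ := h8 f hf
    obtain ⟨C₂, hC₂, h2⟩ := h5
    obtain ⟨β, hβ, C₃, hC₃, Z₀, h3⟩ := h7
    refine ⟨C₂ * 2 * C₁ + C₃ * C₁, by positivity, β, hβ, Z₀, ?_⟩
    intro H v₀ v₁ hH hHv hW Y hY
    obtain ⟨s, a, hs, hG, ha⟩ := h1 H v₀ v₁ hH hHv hW Y hY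
    have hY1 : 1 ≤ Y := by
      refine le_trans ?_ hY
      exact Real.one_le_exp (by positivity)
    have hY0 : 0 < Y := by linarith
    have hB : 0 ≤ 1 / (∑ v ∈ Ico v₀ v₁, m2 H v) + 1 / (H : ℝ) ^ 2 := by positivity
    refine ⟨DP2 s a, hG, ?_, ?_⟩
    · intro K hK hKY
      have h4 := h2 Y K s a hY1 hK hs
      have h5 : 0 ≤ ∑ z ∈ s, ‖a z‖ ^ 2 := sum_nonneg fun _ _ => by positivity
      calc ∑ κ ∈ FB K, ‖DP2 s a κ‖ ^ 2 ≤ C₂ * (K + Y) * ∑ z ∈ s, ‖a z‖ ^ 2 := h4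
        _ ≤ C₂ * (Y + Y) * ∑ z ∈ s, ‖a z‖ ^ 2 := by gcongr
        _ = C₂ * 2 * (Y * ∑ z ∈ s, ‖a z‖ ^ 2) := by ring
        _ ≤ C₂ * 2 * (C₁ * (1 / (∑ v ∈ Ico v₀ v₁, m2 H v) + 1 / (H : ℝ) ^ 2)) := by
            gcongr
        _ ≤ _ := by
            have : 0 ≤ C₃ * C₁ * (1 / (∑ v ∈ Ico v₀ v₁, m2 H v) + 1 / (H : ℝ) ^ 2) := by
              positivity
            linarith
    · intro hZ U hU hcard
      have h4 := h3 Y hZ U hU hcard s a hs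
      calc ∑ κ ∈ U, ‖DP2 s a κ‖ ^ 2 ≤ C₃ * Y * ∑ z ∈ s, ‖a z‖ ^ 2 := h4
        _ = C₃ * (Y * ∑ z ∈ s, ‖a z‖ ^ 2) := by ring
        _ ≤ C₃ * (C₁ * (1 / (∑ v ∈ Ico v₀ v₁, m2 H v) + 1 / (H : ℝ) ^ 2)) := by gcongr
        _ ≤ _ := by
            have : 0 ≤ C₂ * 2 * C₁ *
                (1 / (∑ v ∈ Ico v₀ v₁, m2 H v) + 1 / (H : ℝ) ^ 2) := by positivity
            linarith
  · obtain ⟨β, hβ, C₃, hC₃, Z₀, h3⟩ := h7
    obtain ⟨C₄, hC₄, h4⟩ := win_mass hD4 (Pool.Agent.W45.GA.lat hD4)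
    have he2 : 0 < Real.exp 2 := Real.exp_pos _
    refine ⟨C₃ * (Real.exp 2 * C₄), by positivity, β, hβ, max Z₀ (Real.exp 3), ?_⟩
    intro Z hZ U hU hcard
    have hZ0 : Z₀ ≤ Z := (le_max_left _ _).trans hZ
    have hZ3 : Real.exp 3 ≤ Z := (le_max_right _ _).trans hZ
    have hZpos : 0 < Z := (Real.exp_pos _).trans_le hZ3
    have he12 : Real.exp 1 ≤ Real.exp 2 := Real.exp_le_exp.2 (by norm_num)
    obtain ⟨s, hs⟩ : ∃ s, s = (ball 0 1 (Real.exp 1 * Z)).filter (fun z => bg Z z ≠ 0) := ⟨_, rfl⟩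
    have hsw : s ⊆ win 0 1 Z := by
      intro z hz
      rw [hs, mem_filter, mem_ball hD4] at hz
      have hz0 := (one_le_nm hD4).1 hz.1.1
      have h5 := bg_ne hD4 hZpos hz0 hz.2
      rw [mem_win hD4]
      refine ⟨hz.1.1, le_trans ?_ h5.1, h5.2.trans ?_⟩
      · exact div_le_div_of_nonneg_left hZpos.le (Real.exp_pos _) he12
      · exact mul_le_mul_of_nonneg_right he12 hZpos.le
    have hGA : ∀ κ : ℤ × ℤ, G2 f Z κ = DP2 s (fun z => (f z : ℂ) * (bg Z z : ℂ)) κ := by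
      intro κ
      unfold G2 DP2
      rw [hs]
      symm
      refine Finset.sum_filter_of_ne fun z _ hne h0 => ?_
      apply hne
      simp [h0]
    have h5 := h3 Z hZ0 U hU hcard s (fun z => (f z : ℂ) * (bg Z z : ℂ)) hsw
    have h6 : Z * ∑ z ∈ s, ‖(f z : ℂ) * (bg Z z : ℂ)‖ ^ 2 ≤ Real.exp 2 * C₄ := by
      rw [Finset.mul_sum]
      calc ∑ z ∈ s, Z * ‖(f z : ℂ) * (bg Z z : ℂ)‖ ^ 2
          ≤ ∑ z ∈ s, Real.exp 2 * (1 / (nm z : ℝ)) := by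
            refine sum_le_sum fun z hz => ?_
            have hzw := hsw hz
            rw [mem_win hD4] at hzw
            have hn : (0 : ℝ) < nm z := by exact_mod_cast hzw.1
            have h7 : ‖(f z : ℂ) * (bg Z z : ℂ)‖ ≤ 1 / nm z := by
              rw [norm_mul, Complex.norm_real, Complex.norm_real, Real.norm_eq_abs,
                Real.norm_eq_abs, abs_of_nonneg (bg_nonneg _ _)]
              calc |f z| * bg Z z ≤ 1 * (1 / nm z) :=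
                    mul_le_mul (hf.bd z) (bg_le _ _) (bg_nonneg _ _) zero_le_one
                _ = 1 / nm z := one_mul _
            have h9 : Z ≤ Real.exp 2 * nm z := by
              have := hzw.2.1
              rw [div_le_iff₀ he2] at this
              linarith
            calc Z * ‖(f z : ℂ) * (bg Z z : ℂ)‖ ^ 2 ≤ (Real.exp 2 * nm z) * (1 / nm z) ^ 2 := by
                  gcongr
              _ = Real.exp 2 * (1 / (nm z : ℝ)) := by field_simp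
        _ = Real.exp 2 * ∑ z ∈ s, 1 / (nm z : ℝ) := by rw [Finset.mul_sum]
        _ ≤ Real.exp 2 * ∑ z ∈ win 0 1 Z, 1 / (nm z : ℝ) := by
            gcongr
        _ ≤ Real.exp 2 * C₄ := by
            gcongr
            exact h4 Z hZ3
    calc ∑ κ ∈ U, ‖G2 f Z κ‖ ^ 2
        = ∑ κ ∈ U, ‖DP2 s (fun z => (f z : ℂ) * (bg Z z : ℂ)) κ‖ ^ 2 := by
          refine sum_congr rfl fun κ _ => by rw [hGA κ]
      _ ≤ C₃ * Z * ∑ z ∈ s, ‖(f z : ℂ) * (bg Z z : ℂ)‖ ^ 2 := h5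
      _ = C₃ * (Z * ∑ z ∈ s, ‖(f z : ℂ) * (bg Z z : ℂ)‖ ^ 2) := by ring
      _ ≤ C₃ * (Real.exp 2 * C₄) := by gcongr

/-- MS9 -/
theorem mr2 (h2 : S_MACHE) (h4 : S_CELL2) (h5 : S_LS2) (h6 : S_MOM2) (h7 : S_SPARSE2)
    (h8 : S_DEC2) : S_MR2 :=
  fun f hf hMZ => h2 (P2 f) m2 (G2 f) (machE hf hMZ h4 h5 h6 h7 h8)

/-- the averages over the short squares -/
theorem sqaAll (h2 : S_MACHE) (h4 : S_CELL2) (h5 : S_LS2) (h6 : S_MOM2) (h7 : S_SPARSE2)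
    (h8 : S_DEC2) (h10 : S_CELLS) (h11 : S_SQB) (h12 : S_PRET2) (h13 : S_HAL2) {f : Gi → ℝ}
    (hf : CMR f) : ∃ μ : ℝ, Tendsto (PP2 f) atTop (nhds μ) ∧ SqA f μ := by
  by_cases hp : Pret f
  · exact h12 f hf hp
  · obtain ⟨h1, hMZ⟩ := h13 f hf hp
    exact ⟨0, h1, h11 f hf.bd (h10 f hf.bd (mr2 h2 h4 h5 h6 h7 h8 f hf hMZ))⟩

end Pool.Agent.N912.MS
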