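import Pool.Agent.N912.MS.Stm
import Pool.Agent.W78.GA.MR

/-!
# Project MS (helper912): the frequencies `(0, l)`, by partial summation
-/

set_option autoImplicit false

namespace Pool.Agent.N912.MS

open Finset Filter
open Pool.Agent.H376R2.MR (ch w FK FR LL aa Wt)
open Pool.Agent.W78.GA

theorem hD4 : (0 : ℤ) ^ 2 < 4 * 1 := by norm_num

theorem norm_ch (k : ℤ) (x : ℝ) : ‖ch k x‖ = 1 := by
  unfold ch
  rw [← Complex.ofReal_neg, Complex.norm_exp_ofReal_mul_I]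

/-- `w(log x - log Y)/x (x)^(-il)` -/
noncomputable def fi (l : ℤ) (Y x : ℝ) : ℂ :=
  ((w (Real.log x - Real.log Y) / x : ℝ) : ℂ) * ch l (Real.log x)

theorem w_lip (a b : ℝ) : |w a - w b| ≤ |a - b| := by
  unfold w
  have h1 := abs_max_sub_max_le_max (0 : ℝ) (1 - |a|) 0 (1 - |b|)
  have h2 : |(1 - |a|) - (1 - |b|)| ≤ |a - b| := by
    rw [show (1 - |a|) - (1 - |b|) = |b| - |a| by ring, abs_sub_comm a b]
    exact abs_abs_sub_abs_le_abs_sub b a
  rw [sub_self, abs_zero] at h1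
  exact h1.trans (max_le (abs_nonneg _) h2)

theorem ch_lip (l : ℤ) (a b : ℝ) : ‖ch l a - ch l b‖ ≤ |(l : ℝ)| * |a - b| := by
  have e : ch l a - ch l b = ch l b * (Complex.exp (Complex.I * ((-(l * (a - b)) : ℝ) : ℂ)) - 1) := by
    unfold ch
    rw [mul_sub, mul_one, ← Complex.exp_add]
    congr 2
    push_cast
    ring
  rw [e, norm_mul, norm_ch, one_mul]
  refine (Real.norm_exp_I_mul_ofReal_sub_one_le).trans ?_
  rw [Real.norm_eq_abs, abs_neg, abs_mul]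

theorem fi_diff (l : ℤ) (Y : ℝ) (n : ℕ) (hn : 1 ≤ n) :
    ‖fi l Y n - fi l Y ((n + 1 : ℕ) : ℝ)‖ ≤ (2 + |(l : ℝ)|) / (n : ℝ) ^ 2 := by
  have hn0 : (0 : ℝ) < n := by exact_mod_cast hn
  have hn1 : (0 : ℝ) < ((n + 1 : ℕ) : ℝ) := by positivity
  have hcast : ((n + 1 : ℕ) : ℝ) = (n : ℝ) + 1 := by push_cast; ring
  have hlog0 : 0 ≤ Real.log ((n + 1 : ℕ) : ℝ) - Real.log n := by
    rw [sub_nonneg]
    exact Real.log_le_log hn0 (by rw [hcast]; linarith)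
  have hlog : Real.log ((n + 1 : ℕ) : ℝ) - Real.log n ≤ 1 / n := by
    rw [← Real.log_div hn1.ne' hn0.ne']
    refine (Real.log_le_sub_one_of_pos (by positivity)).trans (le_of_eq ?_)
    rw [hcast]
    field_simp
    ring
  obtain ⟨a, ha⟩ : ∃ a, a = w (Real.log n - Real.log Y) := ⟨_, rfl⟩
  obtain ⟨b, hb⟩ : ∃ b, b = w (Real.log ((n + 1 : ℕ) : ℝ) - Real.log Y) := ⟨_, rfl⟩
  have hab : |a - b| ≤ 1 / n := by
    rw [ha, hb]
    refine (w_lip _ _).trans ?_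
    rw [show Real.log (n : ℝ) - Real.log Y - (Real.log ((n + 1 : ℕ) : ℝ) - Real.log Y) =
      -(Real.log ((n + 1 : ℕ) : ℝ) - Real.log n) by ring, abs_neg, abs_of_nonneg hlog0]
    exact hlog
  have ha0 : 0 ≤ a := by rw [ha]; exact w_nonneg' _
  have ha1 : a ≤ 1 := by rw [ha]; exact w_le_one' _
  have e : fi l Y n - fi l Y ((n + 1 : ℕ) : ℝ) =
      ((a / n - b / ((n + 1 : ℕ) : ℝ) : ℝ) : ℂ) * ch l (Real.log ((n + 1 : ℕ) : ℝ)) +
      ((a / n : ℝ) : ℂ) * (ch l (Real.log n) - ch l (Real.log ((n + 1 : ℕ) : ℝ))) := by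
    unfold fi
    rw [← ha, ← hb]
    push_cast
    ring
  rw [e]
  refine (norm_add_le _ _).trans ?_
  rw [norm_mul, norm_mul, norm_ch, mul_one, Complex.norm_real, Complex.norm_real,
    Real.norm_eq_abs, Real.norm_eq_abs]
  have h1 : |a / n - b / ((n + 1 : ℕ) : ℝ)| ≤ 2 / (n : ℝ) ^ 2 := by
    have e2 : a / n - b / ((n + 1 : ℕ) : ℝ) =
        a * (1 / n - 1 / ((n + 1 : ℕ) : ℝ)) + (a - b) * (1 / ((n + 1 : ℕ) : ℝ)) := by ring
    have h3 : 1 / (n : ℝ) - 1 / ((n + 1 : ℕ) : ℝ) = 1 / (n * ((n + 1 : ℕ) : ℝ)) := by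
      rw [hcast]
      field_simp
      ring
    rw [e2]
    refine (abs_add_le _ _).trans ?_
    rw [abs_mul, abs_mul, h3, abs_of_nonneg ha0, abs_of_pos (by positivity : 0 < 1 / (n * ((n + 1 : ℕ) : ℝ))),
      abs_of_pos (by positivity : 0 < 1 / ((n + 1 : ℕ) : ℝ))]
    have h4 : 1 / (n * ((n + 1 : ℕ) : ℝ)) ≤ 1 / (n : ℝ) ^ 2 := by
      apply one_div_le_one_div_of_le (by positivity)
      rw [pow_two]
      exact mul_le_mul_of_nonneg_left (by rw [hcast]; linarith) hn0.le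
    calc a * (1 / (n * ((n + 1 : ℕ) : ℝ))) + |a - b| * (1 / ((n + 1 : ℕ) : ℝ))
        ≤ 1 * (1 / (n : ℝ) ^ 2) + 1 / n * (1 / ((n + 1 : ℕ) : ℝ)) := by
          gcongr
      _ = 1 / (n : ℝ) ^ 2 + 1 / (n * ((n + 1 : ℕ) : ℝ)) := by
          rw [one_mul, one_div_mul_one_div]
      _ ≤ 1 / (n : ℝ) ^ 2 + 1 / (n : ℝ) ^ 2 := by linarith
      _ = 2 / (n : ℝ) ^ 2 := by ring
  have h2 : |a / n| * ‖ch l (Real.log n) - ch l (Real.log ((n + 1 : ℕ) : ℝ))‖ ≤
      |(l : ℝ)| / (n : ℝ) ^ 2 := by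
    have h5 := ch_lip l (Real.log n) (Real.log ((n + 1 : ℕ) : ℝ))
    rw [show |Real.log (n : ℝ) - Real.log ((n + 1 : ℕ) : ℝ)| =
      Real.log ((n + 1 : ℕ) : ℝ) - Real.log n by rw [abs_sub_comm, abs_of_nonneg hlog0]] at h5
    have h6 : |a / n| ≤ 1 / n := by
      rw [abs_of_nonneg (by positivity)]
      exact div_le_div_of_nonneg_right ha1 hn0.le
    calc |a / n| * ‖ch l (Real.log n) - ch l (Real.log ((n + 1 : ℕ) : ℝ))‖
        ≤ 1 / n * (|(l : ℝ)| * (1 / n)) := by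
          apply mul_le_mul h6 (h5.trans ?_) (norm_nonneg _) (by positivity)
          exact mul_le_mul_of_nonneg_left hlog (abs_nonneg _)
      _ = |(l : ℝ)| / (n : ℝ) ^ 2 := by ring
  calc _ ≤ 2 / (n : ℝ) ^ 2 + |(l : ℝ)| / (n : ℝ) ^ 2 := add_le_add h1 h2
    _ = _ := by ring

theorem w_zero {s : ℝ} (h : 1 ≤ |s|) : w s = 0 := by
  unfold w
  exact max_eq_left (by linarith)

theorem fi_big {l : ℤ} {Y x : ℝ} (hY : 0 < Y) (hx : Real.exp 1 * Y ≤ x) : fi l Y x = 0 := by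
  have hx0 : 0 < x := lt_of_lt_of_le (by positivity) hx
  have h1 := Real.log_le_log (by positivity) hx
  rw [Real.log_mul (Real.exp_pos 1).ne' hY.ne', Real.log_exp] at h1
  unfold fi
  rw [w_zero (by rw [abs_of_nonneg (by linarith)]; linarith)]
  simp

theorem fi_small {l : ℤ} {Y x : ℝ} (hY : 0 < Y) (hx0 : 0 < x) (hx : x ≤ Y / Real.exp 1) :
    fi l Y x = 0 := by
  have h1 := Real.log_le_log hx0 hx
  rw [Real.log_div hY.ne' (Real.exp_pos 1).ne', Real.log_exp] at h1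
  unfold fi
  rw [w_zero (by rw [abs_of_nonpos (by linarith)]; linarith)]
  simp

theorem G2_radial (f : Gi → ℝ) (Y : ℝ) (l : ℤ) :
    G2 f Y (0, l) = ∑ z ∈ ball 0 1 (Real.exp 1 * Y), (f z : ℂ) * fi l Y (nm z) := by
  unfold G2 DP2
  refine sum_congr rfl fun z _ => ?_
  unfold chi fi bg
  rw [ps_zero, one_mul]
  ring

theorem abel (f : Gi → ℝ) {Y : ℝ} (hY : 0 < Y) (l : ℤ) :
    G2 f Y (0, l) = ∑ n ∈ Icc 1 ⌊Real.exp 1 * Y⌋₊,
      (fi l Y n - fi l Y ((n + 1 : ℕ) : ℝ)) * ((∑ z ∈ ball 0 1 n, f z : ℝ) : ℂ) := by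
  classical
  obtain ⟨M, hM⟩ : ∃ M, M = ⌊Real.exp 1 * Y⌋₊ + 1 := ⟨_, rfl⟩
  have hMlt : Real.exp 1 * Y < (M : ℝ) := by
    rw [hM]
    push_cast
    exact Nat.lt_floor_add_one _
  have key : ∀ z ∈ ball 0 1 (Real.exp 1 * Y), fi l Y (nm z) =
      ∑ n ∈ Icc 1 ⌊Real.exp 1 * Y⌋₊, if nm z ≤ n then (fi l Y n - fi l Y ((n + 1 : ℕ) : ℝ)) else 0 := by
    intro z hz
    rw [mem_ball hD4] at hz
    have h1 : nm z ≤ ⌊Real.exp 1 * Y⌋₊ := Nat.le_floor hz.2
    have h2 := Finset.sum_Ico_sub (fun n : ℕ => -fi l Y (n : ℝ)) (h1.trans (by omega : _ ≤ M))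
    rw [← sum_filter]
    have e : (Icc 1 ⌊Real.exp 1 * Y⌋₊).filter (fun n => nm z ≤ n) = Ico (nm z) M := by
      ext n
      simp only [mem_filter, mem_Icc, mem_Ico, hM]
      omega
    rw [e]
    have e2 : ∑ n ∈ Ico (nm z) M, (fi l Y n - fi l Y ((n + 1 : ℕ) : ℝ)) =
        ∑ n ∈ Ico (nm z) M, (-fi l Y ((n + 1 : ℕ) : ℝ) - -fi l Y (n : ℝ)) :=
      sum_congr rfl fun n _ => by ring
    rw [e2, h2, fi_big hY hMlt.le]
    ring
  rw [G2_radial]
  calc ∑ z ∈ ball 0 1 (Real.exp 1 * Y), (f z : ℂ) * fi l Y (nm z)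
      = ∑ z ∈ ball 0 1 (Real.exp 1 * Y), ∑ n ∈ Icc 1 ⌊Real.exp 1 * Y⌋₊,
          (f z : ℂ) * (if nm z ≤ n then (fi l Y n - fi l Y ((n + 1 : ℕ) : ℝ)) else 0) := by
        refine sum_congr rfl fun z hz => ?_
        rw [key z hz, mul_sum]
    _ = ∑ n ∈ Icc 1 ⌊Real.exp 1 * Y⌋₊, ∑ z ∈ ball 0 1 (Real.exp 1 * Y),
          (f z : ℂ) * (if nm z ≤ n then (fi l Y n - fi l Y ((n + 1 : ℕ) : ℝ)) else 0) := sum_comm
    _ = _ := by
        refine sum_congr rfl fun n hn => ?_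
        rw [mem_Icc] at hn
        have hn2 : (n : ℝ) ≤ Real.exp 1 * Y :=
          (Nat.cast_le.2 hn.2).trans (Nat.floor_le (by positivity))
        have e3 : (ball 0 1 (Real.exp 1 * Y)).filter (fun z => nm z ≤ n) = ball 0 1 (n : ℝ) := by
          ext z
          rw [mem_filter, mem_ball hD4, mem_ball hD4, Nat.cast_le]
          constructor
          · rintro ⟨⟨h1, -⟩, h2⟩
            exact ⟨h1, h2⟩
          · rintro ⟨h1, h2⟩
            exact ⟨⟨h1, (Nat.cast_le.2 h2).trans hn2⟩, h2⟩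
        rw [← e3]
        push_cast
        rw [mul_sum, sum_filter]
        refine sum_congr rfl fun z _ => ?_
        split_ifs
        · ring
        · ring

theorem small {f : Gi → ℝ} (hMZ : MZ f) (l : ℤ) :
    Tendsto (fun Y : ℝ => ‖G2 f Y (0, l)‖) atTop (nhds 0) := by
  rw [Metric.tendsto_atTop]
  intro ε hε
  obtain ⟨B, hB⟩ : ∃ B : ℝ, B = 2 + |(l : ℝ)| := ⟨_, rfl⟩
  have hB0 : 0 < B := by rw [hB]; positivity
  obtain ⟨X₀, hX₀⟩ := hMZ (ε / (72 * B)) (by positivity)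
  have he1 : 0 < Real.exp 1 := Real.exp_pos 1
  have he3 : Real.exp 1 < 3 := Real.exp_one_lt_three
  refine ⟨max (2 * Real.exp 1) (2 * Real.exp 1 * X₀), fun Y hY => ?_⟩
  have hY1 : 2 * Real.exp 1 ≤ Y := (le_max_left _ _).trans hY
  have hY2 : 2 * Real.exp 1 * X₀ ≤ Y := (le_max_right _ _).trans hY
  have hY0 : 0 < Y := by linarith
  rw [dist_zero_right, norm_norm, abel f hY0 l]
  have hYe : Y / (2 * Real.exp 1) ≤ Y / Real.exp 1 - 1 := by
    have : 1 ≤ Y / (2 * Real.exp 1) := by rwa [le_div_iff₀ (by positivity), one_mul]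
    have e : Y / Real.exp 1 = Y / (2 * Real.exp 1) + Y / (2 * Real.exp 1) := by
      field_simp
      ring
    linarith
  have hterm : ∀ n ∈ Icc 1 ⌊Real.exp 1 * Y⌋₊,
      ‖(fi l Y n - fi l Y ((n + 1 : ℕ) : ℝ)) * ((∑ z ∈ ball 0 1 n, f z : ℝ) : ℂ)‖ ≤
        ε / (72 * B) * B * (2 * Real.exp 1 / Y) := by
    intro n hn
    rw [mem_Icc] at hn
    have hn0 : (0 : ℝ) < n := by exact_mod_cast hn.1
    by_cases hc : ((n + 1 : ℕ) : ℝ) ≤ Y / Real.exp 1
    · rw [fi_small hY0 (by positivity) hc, fi_small hY0 hn0 (by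
        refine le_trans ?_ hc
        push_cast
        linarith), sub_zero, zero_mul, norm_zero]
      positivity
    · push Not at hc
      push_cast at hc
      have hn1 : Y / (2 * Real.exp 1) ≤ n := by linarith
      have hX : X₀ ≤ n := by
        refine le_trans ?_ hn1
        rw [le_div_iff₀ (by positivity)]
        linarith
      rw [norm_mul, Complex.norm_real, Real.norm_eq_abs]
      have h1 := fi_diff l Y n hn.1
      have h2 := hX₀ n hX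
      rw [← hB] at h1
      have h3 : 1 / (n : ℝ) ≤ 2 * Real.exp 1 / Y := by
        rw [div_le_div_iff₀ hn0 hY0, one_mul]
        rw [div_le_iff₀ (by positivity)] at hn1
        linarith
      calc ‖fi l Y n - fi l Y ((n + 1 : ℕ) : ℝ)‖ * |∑ z ∈ ball 0 1 (n : ℝ), f z|
          ≤ B / (n : ℝ) ^ 2 * (ε / (72 * B) * n) :=
            mul_le_mul h1 h2 (abs_nonneg _) (by positivity)
        _ = ε / (72 * B) * B * (1 / n) := by
            field_simp
        _ ≤ ε / (72 * B) * B * (2 * Real.exp 1 / Y) := by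
            gcongr
  refine lt_of_le_of_lt (norm_sum_le_of_le _ hterm) ?_
  rw [sum_const, Nat.card_Icc, nsmul_eq_mul, Nat.add_sub_cancel]
  have h4 : (⌊Real.exp 1 * Y⌋₊ : ℝ) ≤ Real.exp 1 * Y := Nat.floor_le (by positivity)
  calc (⌊Real.exp 1 * Y⌋₊ : ℝ) * (ε / (72 * B) * B * (2 * Real.exp 1 / Y))
      ≤ (Real.exp 1 * Y) * (ε / (72 * B) * B * (2 * Real.exp 1 / Y)) := by gcongr
    _ = ε * (Real.exp 1 * Real.exp 1 / 36) := by
        field_simp
        ring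
    _ < ε * 1 := by
        apply mul_lt_mul_of_pos_left _ hε
        rw [div_lt_one (by norm_num)]
        nlinarith
    _ = ε := mul_one ε

end Pool.Agent.N912.MS
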